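import Pool.Agent.Q66.TB.Extra

/-!
# Reflection positivity: Gram matrices of two-bridge tangles
-/

set_option autoImplicit false

namespace Pool.Agent.H172.AP

open Matrix Finset Filter Topology Pool.Agent.W715.VC Pool.Agent.Q66.RP Pool.Agent.Q66.TB

variable {N : ℕ}

/-- the invariant form is positive semidefinite on the highest weight vectors of the weight of the
cup -/
theorem semi_pos (hN : 0 < N) : ∃ c : ℝ, 0 < c ∧ ∀ x y : I3 N → ℂ, InK (N - 1) x → InK (N - 1) y →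
    Hf x y = c * ∑ i ∈ range (N - 1 + 1), ((DD N (N - 1) i : ℝ) : ℂ) *
      ((starRingEnd ℂ) (LL N (N - 1) i x) * LL N (N - 1) i y) := by
  have hm : N - 1 < N := by omega
  have hm2 : N ≤ 2 * (N - 1) + 1 := by omega
  obtain ⟨c, hc⟩ := semi hm hm2
  refine ⟨c, ?_, hc⟩
  have h2 := J12_nil hN
  unfold J12 at h2
  rw [rep3_nil, one_mulVec, hc _ _ (X0_InK N) (X0_InK N)] at h2
  have h3 : (∑ i ∈ range (N - 1 + 1), ((DD N (N - 1) i : ℝ) : ℂ) *
      ((starRingEnd ℂ) (LL N (N - 1) i (X0 N)) * LL N (N - 1) i (X0 N))) =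
      ((∑ i ∈ range (N - 1 + 1), DD N (N - 1) i * ‖LL N (N - 1) i (X0 N)‖ ^ 2 : ℝ) : ℂ) := by
    push_cast
    refine sum_congr rfl fun i _ => ?_
    rw [Complex.conj_mul']
  rw [h3] at h2
  have h4 : c * ∑ i ∈ range (N - 1 + 1), DD N (N - 1) i * ‖LL N (N - 1) i (X0 N)‖ ^ 2 = 1 := by
    exact_mod_cast h2
  have h5 : 0 ≤ ∑ i ∈ range (N - 1 + 1), DD N (N - 1) i * ‖LL N (N - 1) i (X0 N)‖ ^ 2 :=
    sum_nonneg fun i hi => mul_nonneg (by
      rw [mem_range] at hi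
      exact DD_nonneg hm (by omega)) (by positivity)
  by_contra hcon
  have h6 : c * ∑ i ∈ range (N - 1 + 1), DD N (N - 1) i * ‖LL N (N - 1) i (X0 N)‖ ^ 2 ≤ 0 :=
    mul_nonpos_of_nonpos_of_nonneg (not_lt.1 hcon) h5
  linarith

lemma J12_gram (hN : 0 < N) {u w : List (ℕ × Bool)} (hu : ∀ l ∈ u, l.1 < 2) :
    J12 N (dual u ++ w) = Hf (rep3 N u *ᵥ X0 N) (rep3 N w *ᵥ X0 N) := by
  unfold J12
  rw [rep3_append, ← Matrix.mulVec_mulVec, Hf_rep hN dual_lt, dual_dual hu]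

/-- **the Gram matrices are positive semidefinite** -/
theorem gram (hN : 0 < N) {k : ℕ} (w : Fin k → List (ℕ × Bool)) (hw : ∀ i, ∀ l ∈ w i, l.1 < 2)
    (t : Fin k → ℂ) : ∃ x : ℝ, 0 ≤ x ∧
      ∑ i, ∑ j, (starRingEnd ℂ) (t i) * t j * J12 N (dual (w i) ++ w j) = x := by
  obtain ⟨c, hc0, hc⟩ := semi_pos hN
  have hK : ∀ i, InK (N - 1) (rep3 N (w i) *ᵥ X0 N) := fun i => (good_rep3 _).InK (X0_InK N)
  refine ⟨c * ∑ a ∈ range (N - 1 + 1), DD N (N - 1) a *
    ‖∑ j, t j * LL N (N - 1) a (rep3 N (w j) *ᵥ X0 N)‖ ^ 2, ?_, ?_⟩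
  · refine mul_nonneg hc0.le (sum_nonneg fun a ha => mul_nonneg ?_ (by positivity))
    rw [mem_range] at ha
    exact DD_nonneg (by omega) (by omega)
  · have h1 : ∀ i j, (starRingEnd ℂ) (t i) * t j * J12 N (dual (w i) ++ w j) =
        ∑ a ∈ range (N - 1 + 1), (c : ℂ) * ((DD N (N - 1) a : ℝ) : ℂ) *
          ((starRingEnd ℂ) (t i * LL N (N - 1) a (rep3 N (w i) *ᵥ X0 N)) *
            (t j * LL N (N - 1) a (rep3 N (w j) *ᵥ X0 N))) := by
      intro i j
      rw [J12_gram hN (hw i), hc _ _ (hK i) (hK j), mul_sum, mul_sum]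
      refine sum_congr rfl fun a _ => ?_
      rw [map_mul]
      ring
    calc ∑ i, ∑ j, (starRingEnd ℂ) (t i) * t j * J12 N (dual (w i) ++ w j)
        = ∑ i, ∑ j, ∑ a ∈ range (N - 1 + 1), (c : ℂ) * ((DD N (N - 1) a : ℝ) : ℂ) *
          ((starRingEnd ℂ) (t i * LL N (N - 1) a (rep3 N (w i) *ᵥ X0 N)) *
            (t j * LL N (N - 1) a (rep3 N (w j) *ᵥ X0 N))) := by
          simp only [h1]
      _ = ∑ a ∈ range (N - 1 + 1), ∑ i, ∑ j, (c : ℂ) * ((DD N (N - 1) a : ℝ) : ℂ) *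
          ((starRingEnd ℂ) (t i * LL N (N - 1) a (rep3 N (w i) *ᵥ X0 N)) *
            (t j * LL N (N - 1) a (rep3 N (w j) *ᵥ X0 N))) := by
          rw [sum_congr rfl fun i _ => sum_comm]
          exact sum_comm
      _ = _ := by
          push_cast
          rw [mul_sum]
          refine sum_congr rfl fun a _ => ?_
          rw [← Complex.conj_mul', map_sum, sum_mul, mul_sum, mul_sum]
          refine sum_congr rfl fun i _ => ?_
          rw [mul_sum, mul_sum, mul_sum]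
          refine sum_congr rfl fun j _ => ?_
          ring

/-- **positivity** -/
theorem J12_pos (hN : 0 < N) (l : List ℤ) : ∃ x : ℝ, 0 < x ∧
    J12 N (dual (cw true l) ++ cw true l) = x := by
  obtain ⟨x, hx, h⟩ := gram hN (k := 1) (fun _ => cw true l) (fun _ => cw_lt _ _) (fun _ => 1)
  simp only [univ_unique, sum_singleton, map_one, one_mul] at h
  refine ⟨x, lt_of_le_of_ne hx ?_, h⟩
  intro h0
  have h1 := KK_pos hN l
  have h2 : cw true (l ++ l.reverse) = dual (cw true l) ++ cw true l := by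
    rw [cw_append, dual_cw]
  rw [KK_even (by rw [List.length_append, List.length_reverse]; omega), h2, h, ← h0] at h1
  simp at h1

end Pool.Agent.H172.AP
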